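import Pool.Agent.R469.TabAut

/-!
# The tree of standard Young tableaux with at most `k` rows has no symmetry

`Pool.Agent.R469.Tab Sh` is the type of the standard tableaux whose shape satisfies `Sh`,
`Pool.Agent.R469.tabTree Sh` is the graph in which every tableau is joined to the tableaux obtained
by adding one cell with the next entry. For the Young diagrams with at most `k ≥ 1` rows every
automorphism of this graph is the identity.
-/

namespace Pool.Agent.Results.MP_291af2_co.RigidTree

open Pool.Agent.R469

/-- The set of cells of a Young diagram with at most `k` rows (the number of rows is the length of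
the first column). -/
def AtMostRows (k : ℕ) (s : Finset (ℕ × ℕ)) : Prop :=
  ∃ μ : YoungDiagram, μ.cells = s ∧ μ.colLen 0 ≤ k

theorem atMostRows_iff {k : ℕ} (hk : 1 ≤ k) (s : Finset (ℕ × ℕ)) :
    AtMostRows k s ↔ Rigid.IsIdeal (fun _ => k - 1) s := by
  constructor
  · rintro ⟨μ, rfl, hμ⟩
    constructor
    · intro c hc
      have h1 : (c.1, 0) ∈ μ := μ.isLowerSet (show ((c.1, 0) : ℕ × ℕ) ≤ c from ⟨le_rfl, Nat.zero_le _⟩) hc
      have h2 := YoungDiagram.mem_iff_lt_colLen.1 h1
      show c.1 ≤ k - 1
      omega
    · intro c hc d h1 h2 _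
      exact μ.isLowerSet (show d ≤ c from ⟨h1, h2⟩) hc
  · rintro ⟨h1, h2⟩
    refine ⟨⟨s, ?_⟩, rfl, ?_⟩
    · intro c d hdc hc
      exact h2 c hc d hdc.1 hdc.2 (hdc.1.trans (h1 c hc))
    · by_contra hlt
      have hm : (k, 0) ∈ (⟨s, fun c d hdc hc => h2 c hc d hdc.1 hdc.2 (hdc.1.trans (h1 c hc))⟩ :
          YoungDiagram) := YoungDiagram.mem_iff_lt_colLen.2 (by omega)
      have := h1 _ ((YoungDiagram.mem_cells _).2 hm)
      simp only at this
      omega

/-- For every `k ≥ 1` the only automorphism of the unlabeled tree of the standard Young tableaux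
with at most `k` rows is the identity. -/
theorem result (k : ℕ) (hk : 1 ≤ k)
    (φ : tabTree (AtMostRows k) ≃g tabTree (AtMostRows k)) : φ = SimpleGraph.Iso.refl := by
  apply RelIso.ext
  intro T
  exact Tab.rigid (h := fun _ => k - 1) (fun _ _ _ => le_rfl) (atMostRows_iff hk) φ _ T rfl

end Pool.Agent.Results.MP_291af2_co.RigidTree
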